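import Pool.Agent.L5helper98.NG.Defs

/-!
# NG-SELI: the Selberg type integral is infinite
-/

set_option autoImplicit false

open MeasureTheory Filter Topology Set
open scoped ENNReal

namespace Pool.Agent.L5helper82.NG

open Pool.Agent.L5helper98.NG

/-- the integrand -/
noncomputable def F (d m : ℕ) (a : ℝ) (x : Fin m → Fin d → ℝ) : ℝ≥0∞ :=
  ENNReal.ofReal (∏ i, ∏ j ∈ Finset.univ.filter (fun j => i < j), ‖x i - x j‖ ^ (-a))

/-- box -/
def bx (d m : ℕ) (l u : Fin m → Fin d → ℝ) : Set (Fin m → Fin d → ℝ) :=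
  Set.pi univ fun i => Set.pi univ fun j => Ico (l i j) (u i j)

theorem bx_meas (d m : ℕ) (l u : Fin m → Fin d → ℝ) : MeasurableSet (bx d m l u) :=
  MeasurableSet.univ_pi fun i => MeasurableSet.univ_pi fun j => measurableSet_Ico

theorem mem_bx {d m : ℕ} {l u : Fin m → Fin d → ℝ} {x : Fin m → Fin d → ℝ} :
    x ∈ bx d m l u ↔ ∀ i j, l i j ≤ x i j ∧ x i j < u i j := by
  simp only [bx, Set.mem_pi, mem_univ, true_imp_iff, mem_Ico]

theorem F_meas (d m : ℕ) (a : ℝ) : Measurable (F d m a) := by
  unfold F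
  refine Measurable.ennreal_ofReal ?_
  refine Finset.measurable_prod _ fun i _ => Finset.measurable_prod _ fun j _ => ?_
  refine Measurable.pow_const ?_ _
  fun_prop

theorem F_add {d m : ℕ} (a : ℝ) (x : Fin m → Fin d → ℝ) (v : Fin d → ℝ) :
    F d m a (x + fun _ => v) = F d m a x := by
  unfold F
  simp

theorem pairs (m : ℕ) : (∑ i : Fin m, (Finset.univ.filter (fun j : Fin m => i < j)).card) * 2 =
    m * (m - 1) := by
  have h1 : ∀ i : Fin m, (Finset.univ.filter (fun j : Fin m => i < j)).card = m - 1 - (i : ℕ) := by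
    intro i
    have : (Finset.univ.filter (fun j : Fin m => i < j)) = Finset.Ioi i := by
      ext j; simp
    rw [this, Fin.card_Ioi]
  rw [Finset.sum_congr rfl fun i _ => h1 i, Fin.sum_univ_eq_sum_range (fun i => m - 1 - i) m,
    Finset.sum_range_reflect (fun i => i) m, Finset.sum_range_id_mul_two]

theorem F_smul {d m : ℕ} (a : ℝ) (x : Fin m → Fin d → ℝ) :
    F d m a ((1 / 2 : ℝ) • x) = ENNReal.ofReal ((2 : ℝ) ^ (a *
      ((∑ i : Fin m, (Finset.univ.filter (fun j : Fin m => i < j)).card : ℕ) : ℝ))) *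
      F d m a x := by
  unfold F
  rw [← ENNReal.ofReal_mul (by positivity)]
  congr 1
  have h1 : ∀ i j : Fin m, ‖((1 / 2 : ℝ) • x) i - ((1 / 2 : ℝ) • x) j‖ ^ (-a) =
      (2 : ℝ) ^ a * ‖x i - x j‖ ^ (-a) := by
    intro i j
    have h2 : ((1 / 2 : ℝ) • x) i - ((1 / 2 : ℝ) • x) j = (1 / 2 : ℝ) • (x i - x j) := by
      simp [smul_sub]
    rw [h2, norm_smul, Real.mul_rpow (norm_nonneg _) (norm_nonneg _)]
    congr 1
    rw [Real.norm_of_nonneg (by norm_num), one_div, Real.inv_rpow (by norm_num), Real.rpow_neg (by norm_num),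
      inv_inv]
  simp only [h1, Finset.prod_mul_distrib, Finset.prod_const]
  congr 1
  rw [Finset.prod_pow_eq_pow_sum, ← Real.rpow_natCast, ← Real.rpow_mul (by norm_num)]

theorem scale (d m : ℕ) (a r : ℝ) :
    ENNReal.ofReal (2 ^ (m * d)) * ∫⁻ x in bx d m (fun _ _ => 0) (fun _ _ => r / 2), F d m a x =
      ENNReal.ofReal ((2 : ℝ) ^ (a *
      ((∑ i : Fin m, (Finset.univ.filter (fun j : Fin m => i < j)).card : ℕ) : ℝ))) *
      ∫⁻ x in bx d m (fun _ _ => 0) (fun _ _ => r), F d m a x := by
  set A := bx d m (fun _ _ => 0) (fun _ _ => r / 2) with hA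
  set B := bx d m (fun _ _ => 0) (fun _ _ => r) with hB
  have hAm : MeasurableSet A := bx_meas _ _ _ _
  have hBm : MeasurableSet B := bx_meas _ _ _ _
  have h1 := Measure.map_addHaar_smul (volume : Measure (Fin m → Fin d → ℝ))
    (r := (1 / 2 : ℝ)) (by norm_num)
  have h2 : ∫⁻ x, A.indicator (F d m a) x ∂(Measure.map (fun x => (1 / 2 : ℝ) • x) volume) =
      ∫⁻ x, A.indicator (F d m a) ((1 / 2 : ℝ) • x) := by
    rw [lintegral_map ((F_meas d m a).indicator hAm) (measurable_const_smul _)]
  have h3 : ∀ x : Fin m → Fin d → ℝ, A.indicator (F d m a) ((1 / 2 : ℝ) • x) =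
      ENNReal.ofReal ((2 : ℝ) ^ (a *
      ((∑ i : Fin m, (Finset.univ.filter (fun j : Fin m => i < j)).card : ℕ) : ℝ))) *
      B.indicator (F d m a) x := by
    intro x
    have h4 : (1 / 2 : ℝ) • x ∈ A ↔ x ∈ B := by
      rw [hA, hB, mem_bx, mem_bx]
      refine forall_congr' fun i => forall_congr' fun j => ?_
      simp only [Pi.smul_apply, smul_eq_mul]
      constructor
      · rintro ⟨h5, h6⟩
        exact ⟨by linarith, by linarith⟩
      · rintro ⟨h5, h6⟩
        exact ⟨by linarith, by linarith⟩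
    by_cases hx : x ∈ B
    · rw [indicator_of_mem hx, indicator_of_mem (h4.2 hx), F_smul]
    · rw [indicator_of_notMem hx, indicator_of_notMem (fun h => hx (h4.1 h)), mul_zero]
  rw [h1] at h2
  simp only [h3] at h2
  rw [lintegral_smul_measure, lintegral_const_mul _ ((F_meas d m a).indicator hBm),
    lintegral_indicator hAm, lintegral_indicator hBm] at h2
  rw [← h2]
  congr 1
  congr 1
  have h5 : Module.finrank ℝ (Fin m → Fin d → ℝ) = m * d := by
    rw [Module.finrank_pi_fintype]
    simp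
  rw [h5, one_div, inv_pow, inv_inv, abs_of_pos (by positivity)]

theorem transl (d m : ℕ) (a r : ℝ) (v : Fin d → ℝ) :
    ∫⁻ x in bx d m (fun _ j => v j) (fun _ j => v j + r), F d m a x =
      ∫⁻ x in bx d m (fun _ _ => 0) (fun _ _ => r), F d m a x := by
  rw [← lintegral_indicator (bx_meas _ _ _ _), ← lintegral_indicator (bx_meas _ _ _ _),
    ← lintegral_add_right_eq_self _ (fun _ => v : Fin m → Fin d → ℝ)]
  refine lintegral_congr fun x => ?_
  have h4 : (x + fun _ => v) ∈ bx d m (fun _ j => v j) (fun _ j => v j + r) ↔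
      x ∈ bx d m (fun _ _ => 0) (fun _ _ => r) := by
    rw [mem_bx, mem_bx]
    refine forall_congr' fun i => forall_congr' fun j => ?_
    simp only [Pi.add_apply]
    constructor
    · rintro ⟨h5, h6⟩
      exact ⟨by linarith, by linarith⟩
    · rintro ⟨h5, h6⟩
      exact ⟨by linarith, by linarith⟩
  by_cases hx : x ∈ bx d m (fun _ _ => 0) (fun _ _ => r)
  · rw [indicator_of_mem hx, indicator_of_mem (h4.2 hx), F_add]
  · rw [indicator_of_notMem hx, indicator_of_notMem (fun h => hx (h4.1 h))]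

theorem SELI_holds : St_SELI := by
  intro d m a r hd hm ha ham hr hr1
  have hm0 : (0 : ℝ) < m := by
    have : 0 < m := by omega
    exact_mod_cast this
  have hm2 : (2 : ℝ) ≤ m := by exact_mod_cast hm
  set J := ∫⁻ x in bx d m (fun _ _ => 0) (fun _ _ => r), F d m a x with hJ
  set G := ∫⁻ x in bx d m (fun _ _ => 0) (fun _ _ => r / 2), F d m a x with hG
  -- enough for the half open cube
  suffices hJtop : J = ∞ by
    have h1 : J ≤ ∫⁻ x : Fin m → Fin d → ℝ in Set.pi univ (fun _ => Icc 0 (fun _ => r)),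
        F d m a x := by
      refine lintegral_mono_set ?_
      intro x hx
      rw [mem_bx] at hx
      rw [Set.mem_pi]
      intro i _
      rw [mem_Icc]
      exact ⟨fun j => (hx i j).1, fun j => (hx i j).2.le⟩
    rw [hJtop, top_le_iff] at h1
    exact h1
  -- the separated box
  let j0 : Fin d := ⟨0, hd⟩
  let l : Fin m → Fin d → ℝ := fun i j => if j = j0 then (i : ℝ) * (r / m) else 0
  let u : Fin m → Fin d → ℝ := fun i j => if j = j0 then ((i : ℝ) + 1) * (r / m) else r
  have hrm : 0 < r / m := by positivity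
  have hrm2 : r / m ≤ r / 2 := div_le_div_of_nonneg_left hr.le (by norm_num) hm2
  have hmr : (m : ℝ) * (r / m) = r := by field_simp
  have hile : ∀ i : Fin m, (i : ℝ) + 1 ≤ m := by
    intro i
    have := i.2
    exact_mod_cast this
  have hsub : ∀ i j, 0 ≤ l i j ∧ u i j ≤ r ∧ l i j < u i j := by
    intro i j
    by_cases hj : j = j0
    · simp only [l, u, if_pos hj]
      have := hile i
      refine ⟨by positivity, ?_, ?_⟩
      · calc ((i : ℝ) + 1) * (r / m) ≤ m * (r / m) := mul_le_mul_of_nonneg_right this hrm.le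
          _ = r := hmr
      · nlinarith
    · simp only [l, u, if_neg hj]
      exact ⟨le_rfl, le_rfl, hr⟩
  have hV : volume (bx d m l u) ≠ 0 := by
    unfold bx
    rw [volume_pi, Measure.pi_pi]
    refine Finset.prod_ne_zero_iff.2 fun i _ => ?_
    rw [volume_pi_pi]
    refine Finset.prod_ne_zero_iff.2 fun j _ => ?_
    rw [Real.volume_Ico]
    have := (hsub i j).2.2
    exact (ENNReal.ofReal_pos.2 (by linarith)).ne'
  have hge : ∀ x ∈ bx d m l u, 1 ≤ F d m a x := by
    intro x hx
    rw [mem_bx] at hx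
    unfold F
    rw [ENNReal.one_le_ofReal]
    have hfac : ∀ i j : Fin m, i < j → 1 ≤ ‖x i - x j‖ ^ (-a) := by
      intro i j hij
      refine Real.one_le_rpow_of_pos_of_le_one_of_nonpos ?_ ?_ (by linarith)
      · rw [norm_pos_iff, sub_ne_zero]
        intro h
        have h1 := (hx i j0).2
        have h2 := (hx j j0).1
        simp only [l, u, if_true] at h1 h2
        rw [h] at h1
        have h3 : (i : ℝ) + 1 ≤ j := by exact_mod_cast hij
        have h4 : ((i : ℝ) + 1) * (r / m) ≤ (j : ℝ) * (r / m) :=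
          mul_le_mul_of_nonneg_right h3 hrm.le
        linarith
      · rw [pi_norm_le_iff_of_nonneg zero_le_one]
        intro k
        rw [Pi.sub_apply, Real.norm_eq_abs, abs_le]
        have h1 := hx i k
        have h2 := hx j k
        have h3 := hsub i k
        have h4 := hsub j k
        constructor <;> linarith
    have h1 : ∀ i : Fin m, 1 ≤ ∏ j ∈ Finset.univ.filter (fun j => i < j), ‖x i - x j‖ ^ (-a) := by
      intro i
      have := Finset.prod_le_prod (s := Finset.univ.filter (fun j => i < j)) (f := fun _ => (1 : ℝ))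
        (g := fun j => ‖x i - x j‖ ^ (-a)) (fun _ _ => zero_le_one)
        (fun j hj => hfac i j (Finset.mem_filter.1 hj).2)
      rwa [Finset.prod_const_one] at this
    have := Finset.prod_le_prod (s := (Finset.univ : Finset (Fin m))) (f := fun _ => (1 : ℝ))
      (g := fun i => ∏ j ∈ Finset.univ.filter (fun j => i < j), ‖x i - x j‖ ^ (-a))
      (fun _ _ => zero_le_one) (fun i _ => h1 i)
    rwa [Finset.prod_const_one] at this
  -- the small cubes
  let e : (Fin d → Bool) → Fin d → ℝ := fun ε j => if ε j then r / 2 else 0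
  have hee : ∀ ε j, e ε j = 0 ∨ e ε j = r / 2 := by
    intro ε j
    by_cases h : ε j
    · right; simp only [e, if_pos h]
    · left; simp only [e, if_neg h]
  let B : (Fin d → Bool) → Set (Fin m → Fin d → ℝ) :=
    fun ε => bx d m (fun _ j => e ε j) (fun _ j => e ε j + r / 2)
  let i0 : Fin m := ⟨0, by omega⟩
  let i1 : Fin m := ⟨m - 1, by omega⟩
  have hdisj : Pairwise (Function.onFun Disjoint B) := by
    intro ε ε' hne
    rw [Function.onFun, Set.disjoint_left]
    intro x hx hx'
    apply hne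
    funext j
    rw [mem_bx] at hx hx'
    have h1 := hx i0 j
    have h2 := hx' i0 j
    by_cases h3 : ε j = true
    · by_cases h4 : ε' j = true
      · rw [h3, h4]
      · simp only [e, if_pos h3, if_neg h4] at h1 h2
        linarith
    · by_cases h4 : ε' j = true
      · simp only [e, if_pos h4, if_neg h3] at h1 h2
        linarith
      · rw [Bool.not_eq_true] at h3 h4
        rw [h3, h4]
  have hdisj2 : Disjoint (⋃ ε, B ε) (bx d m l u) := by
    rw [Set.disjoint_left]
    intro x hx hx'
    obtain ⟨ε, hε⟩ := mem_iUnion.1 hx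
    rw [mem_bx] at hε hx'
    have h1 := hε i0 j0
    have h2 := hε i1 j0
    have h3 := (hx' i0 j0).2
    have h4 := (hx' i1 j0).1
    simp only [l, u, if_true, i0, i1] at h3 h4
    have h5 : (((m - 1 : ℕ) : ℝ)) = m - 1 := by
      rw [Nat.cast_sub (by omega)]
      simp
    rw [h5] at h4
    have h6 : ((m : ℝ) - 1) * (r / m) = r - r / m := by
      rw [sub_mul, hmr, one_mul]
    rw [h6] at h4
    simp only [Nat.cast_zero, zero_add, one_mul] at h3
    rcases hee ε j0 with h7 | h7
    · rw [h7] at h2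
      simp only [i1] at h2
      linarith [h2.2]
    · rw [h7] at h1
      simp only [i0] at h1
      linarith [h1.1]
  have hBsub : (⋃ ε, B ε) ∪ bx d m l u ⊆ bx d m (fun _ _ => 0) (fun _ _ => r) := by
    intro x hx
    rw [mem_bx]
    intro i j
    rcases hx with hx | hx
    · obtain ⟨ε, hε⟩ := mem_iUnion.1 hx
      rw [mem_bx] at hε
      have h1 := hε i j
      rcases hee ε j with h7 | h7
      · rw [h7] at h1
        exact ⟨h1.1, by linarith [h1.2]⟩
      · rw [h7] at h1
        exact ⟨by linarith [h1.1], by linarith [h1.2]⟩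
    · rw [mem_bx] at hx
      have h1 := hx i j
      have h2 := hsub i j
      exact ⟨by linarith, by linarith⟩
  have hmain : (2 : ℝ≥0∞) ^ d * G + volume (bx d m l u) ≤ J := by
    calc (2 : ℝ≥0∞) ^ d * G + volume (bx d m l u)
        ≤ (∫⁻ x in ⋃ ε, B ε, F d m a x) + ∫⁻ x in bx d m l u, F d m a x := by
          refine add_le_add (le_of_eq ?_) ?_
          · rw [lintegral_iUnion (fun ε => bx_meas _ _ _ _) hdisj, tsum_fintype]
            have h1 : ∀ ε ∈ (Finset.univ : Finset (Fin d → Bool)), ∫⁻ x in B ε, F d m a x = G :=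
              fun ε _ => transl d m a (r / 2) (e ε)
            rw [Finset.sum_congr rfl h1, Finset.sum_const, nsmul_eq_mul]
            congr 1
            simp
          · calc volume (bx d m l u) = ∫⁻ x in bx d m l u, 1 := by simp
              _ ≤ _ := setLIntegral_mono' (bx_meas _ _ _ _) hge
      _ = ∫⁻ x in (⋃ ε, B ε) ∪ bx d m l u, F d m a x :=
          (lintegral_union (bx_meas _ _ _ _) hdisj2).symm
      _ ≤ J := lintegral_mono_set hBsub
  have hsc := scale d m a r
  rw [← hJ, ← hG] at hsc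
  set N := ∑ i : Fin m, (Finset.univ.filter (fun j : Fin m => i < j)).card with hN
  have hpairs := pairs m
  rw [← hN] at hpairs
  have hexp : ((m * d : ℕ) : ℝ) ≤ d + a * N := by
    have h1 : (N : ℝ) * 2 = m * (m - 1) := by
      have : ((N * 2 : ℕ) : ℝ) = ((m * (m - 1) : ℕ) : ℝ) := by rw [hpairs]
      push_cast [Nat.cast_sub (show 1 ≤ m by omega)] at this
      exact this
    have h2 : 2 * (d : ℝ) * (m - 1) ≤ a * m * (m - 1) :=
      mul_le_mul_of_nonneg_right ham (by linarith)
    push_cast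
    nlinarith
  by_contra hJne
  have hGle : (2 : ℝ≥0∞) ^ d * G + volume (bx d m l u) ≤ J := hmain
  have h1 : ENNReal.ofReal (2 ^ (m * d)) * ((2 : ℝ≥0∞) ^ d * G + volume (bx d m l u)) ≤
      ENNReal.ofReal (2 ^ (m * d)) * J := mul_le_mul_right hGle _
  have h2 : ENNReal.ofReal (2 ^ (m * d)) * J ≤
      (2 : ℝ≥0∞) ^ d * (ENNReal.ofReal (2 ^ (m * d)) * G) := by
    rw [hsc, ← mul_assoc]
    refine mul_le_mul_left ?_ J
    have h3 : (2 : ℝ≥0∞) ^ d = ENNReal.ofReal ((2 : ℝ) ^ (d : ℝ)) := by
      rw [Real.rpow_natCast, ENNReal.ofReal_pow (by norm_num)]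
      simp
    rw [h3, ← ENNReal.ofReal_mul (by positivity), ← Real.rpow_add (by norm_num)]
    refine ENNReal.ofReal_le_ofReal ?_
    rw [← Real.rpow_natCast]
    exact Real.rpow_le_rpow_of_exponent_le (by norm_num) hexp
  have h3 : ENNReal.ofReal (2 ^ (m * d)) * J + ENNReal.ofReal (2 ^ (m * d)) *
      volume (bx d m l u) ≤ ENNReal.ofReal (2 ^ (m * d)) * J := by
    refine le_trans ?_ h1
    rw [mul_add]
    refine add_le_add (h2.trans (le_of_eq ?_)) le_rfl
    ring
  have hfin : ENNReal.ofReal (2 ^ (m * d)) * J ≠ ∞ := ENNReal.mul_ne_top ENNReal.ofReal_ne_top hJne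
  have h4 : ENNReal.ofReal (2 ^ (m * d)) * volume (bx d m l u) = 0 := by
    by_contra hne
    exact absurd h3 (not_le.2 (ENNReal.lt_add_right hfin hne))
  rcases mul_eq_zero.1 h4 with h5 | h5
  · rw [ENNReal.ofReal_eq_zero] at h5
    have : (0 : ℝ) < 2 ^ (m * d) := by positivity
    linarith
  · exact hV h5

end Pool.Agent.L5helper82.NG
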